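import Pool.Agent.Helper13.Venn.Defs

namespace Pool.Agent.Helper13.Venn

open Set Metric Topology Bornology

theorem slice_change {V : Type*} [NormedAddCommGroup V] [NormedSpace ℝ V] (K : Set V)
    (s s' : V → ℝ) (hs : ContinuousOn s K) (hs' : ContinuousOn s' K)
    (hpos : ∀ p ∈ K, 0 < s p) (hpos' : ∀ p ∈ K, 0 < s' p)
    (hK : ∀ p ∈ K, ∀ t : ℝ, 0 < t → t • p ∈ K)
    (hom : ∀ p ∈ K, ∀ t : ℝ, 0 < t → s (t • p) = t * s p)
    (hom' : ∀ p ∈ K, ∀ t : ℝ, 0 < t → s' (t • p) = t * s' p) :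
    Nonempty ({p | p ∈ K ∧ s p = 1} ≃ₜ {p | p ∈ K ∧ s' p = 1}) := by
  have key : ∀ (s s' : V → ℝ), ContinuousOn s' K → (∀ p ∈ K, 0 < s' p) →
      Continuous (fun p : {p | p ∈ K ∧ s p = 1} => (s' p.1)⁻¹ • p.1) := by
    intro s s' hs' hpos'
    have h1 : Continuous (fun p : {p | p ∈ K ∧ s p = 1} => s' p.1) :=
      hs'.comp_continuous continuous_subtype_val (fun p => p.2.1)
    exact (h1.inv₀ (fun p => (hpos' p.1 p.2.1).ne')).smul continuous_subtype_val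
  refine ⟨⟨⟨fun p => ⟨(s' p.1)⁻¹ • p.1, hK _ p.2.1 _ (inv_pos.mpr (hpos' _ p.2.1)), ?_⟩,
    fun q => ⟨(s q.1)⁻¹ • q.1, hK _ q.2.1 _ (inv_pos.mpr (hpos _ q.2.1)), ?_⟩, ?_, ?_⟩, ?_, ?_⟩⟩
  · rw [hom' _ p.2.1 _ (inv_pos.mpr (hpos' _ p.2.1))]
    exact inv_mul_cancel₀ (hpos' _ p.2.1).ne'
  · rw [hom _ q.2.1 _ (inv_pos.mpr (hpos _ q.2.1))]
    exact inv_mul_cancel₀ (hpos _ q.2.1).ne'
  · rintro ⟨p, hp, h1⟩
    apply Subtype.ext
    have hne := (hpos' p hp).ne'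
    simp only
    rw [hom p hp _ (inv_pos.mpr (hpos' p hp)), h1, mul_one, inv_inv, smul_smul,
      mul_inv_cancel₀ hne, one_smul]
  · rintro ⟨p, hp, h1⟩
    apply Subtype.ext
    have hne := (hpos p hp).ne'
    simp only
    rw [hom' p hp _ (inv_pos.mpr (hpos p hp)), h1, mul_one, inv_inv, smul_smul,
      mul_inv_cancel₀ hne, one_smul]
  · exact (key s s' hs' hpos').subtype_mk _
  · exact (key s' s hs hpos).subtype_mk _

theorem hom_transport {V W : Type*} [NormedAddCommGroup V] [NormedSpace ℝ V]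
    [NormedAddCommGroup W] [NormedSpace ℝ W] (Λ : V ≃ₜ W)
    (hom : ∀ (t : ℝ) (p : V), 0 < t → Λ (t • p) = t • Λ p) (L : Set W)
    (hL : ∀ q ∈ L, ∀ t : ℝ, 0 < t → t • q ∈ L) :
    Nonempty ({p : V | ‖p‖ = 1 ∧ Λ p ∈ L} ≃ₜ {q : W | ‖q‖ = 1 ∧ q ∈ L}) := by
  have h0 : Λ 0 = 0 := by
    have h := hom 2 0 (by norm_num)
    rw [smul_zero, two_smul] at h
    have : Λ 0 + 0 = Λ 0 + Λ 0 := by rw [add_zero]; exact h
    exact (add_left_cancel this).symm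
  have h0' : Λ.symm 0 = 0 := by rw [← h0]; simp
  have hom' : ∀ (t : ℝ) (q : W), 0 < t → Λ.symm (t • q) = t • Λ.symm q := by
    intro t q ht
    apply Λ.injective
    rw [hom t _ ht]
    simp
  have hne : ∀ p : V, p ≠ 0 → Λ p ≠ 0 := fun p hp h => hp (Λ.injective (h.trans h0.symm))
  have hne' : ∀ q : W, q ≠ 0 → Λ.symm q ≠ 0 := fun q hq h => hq (Λ.symm.injective (h.trans h0'.symm))
  have n1 : ∀ p : V, ‖p‖ = 1 → p ≠ 0 := by
    intro p hp h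
    rw [h, norm_zero] at hp
    exact zero_ne_one hp
  have n1' : ∀ p : W, ‖p‖ = 1 → p ≠ 0 := by
    intro p hp h
    rw [h, norm_zero] at hp
    exact zero_ne_one hp
  have ps : ∀ p : V, ‖p‖ = 1 → 0 < ‖Λ p‖⁻¹ := fun p hp =>
    inv_pos.mpr (norm_pos_iff.mpr (hne p (n1 p hp)))
  have ps' : ∀ q : W, ‖q‖ = 1 → 0 < ‖Λ.symm q‖⁻¹ := fun q hq =>
    inv_pos.mpr (norm_pos_iff.mpr (hne' q (n1' q hq)))
  refine ⟨⟨⟨fun p => ⟨‖Λ p.1‖⁻¹ • Λ p.1, ?_, hL _ p.2.2 _ (ps p.1 p.2.1)⟩,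
    fun q => ⟨‖Λ.symm q.1‖⁻¹ • Λ.symm q.1, ?_, ?_⟩, ?_, ?_⟩, ?_, ?_⟩⟩
  · rw [norm_smul, norm_inv, norm_norm]
    exact inv_mul_cancel₀ (norm_ne_zero_iff.mpr (hne _ (n1 _ p.2.1)))
  · rw [norm_smul, norm_inv, norm_norm]
    exact inv_mul_cancel₀ (norm_ne_zero_iff.mpr (hne' _ (n1' _ q.2.1)))
  · show Λ (‖Λ.symm q.1‖⁻¹ • Λ.symm q.1) ∈ L
    rw [hom _ _ (ps' q.1 q.2.1)]
    simpa using hL _ q.2.2 _ (ps' q.1 q.2.1)
  · rintro ⟨p, hp, h1⟩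
    apply Subtype.ext
    have hpp := ps p hp
    have hN : ‖Λ p‖ ≠ 0 := norm_ne_zero_iff.mpr (hne p (n1 p hp))
    simp only
    rw [hom' _ _ hpp]
    simp only [Homeomorph.symm_apply_apply]
    rw [norm_smul, norm_inv, norm_norm, hp, mul_one, inv_inv, smul_smul, mul_inv_cancel₀ hN,
      one_smul]
  · rintro ⟨q, hq, h1⟩
    apply Subtype.ext
    have hpp := ps' q hq
    have hN : ‖Λ.symm q‖ ≠ 0 := norm_ne_zero_iff.mpr (hne' q (n1' q hq))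
    simp only
    rw [hom _ _ hpp]
    simp only [Homeomorph.apply_symm_apply]
    rw [norm_smul, norm_inv, norm_norm, hq, mul_one, inv_inv, smul_smul, mul_inv_cancel₀ hN,
      one_smul]
  · have h1 : Continuous (fun p : {p : V | ‖p‖ = 1 ∧ Λ p ∈ L} => Λ p.1) :=
      Λ.continuous.comp continuous_subtype_val
    exact ((h1.norm.inv₀ (fun p => norm_ne_zero_iff.mpr (hne _ (n1 _ p.2.1)))).smul h1).subtype_mk _
  · have h1 : Continuous (fun q : {q : W | ‖q‖ = 1 ∧ q ∈ L} => Λ.symm q.1) :=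
      Λ.symm.continuous.comp continuous_subtype_val
    exact ((h1.norm.inv₀ (fun p => norm_ne_zero_iff.mpr (hne' _ (n1' _ p.2.1)))).smul h1).subtype_mk _

end Pool.Agent.Helper13.Venn
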